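import Pool.Agent.Helper15.UL.GoalsA

/-! # MP_57a173_lc: packet FPST, the step of the induction for the fusion principle -/

noncomputable section

namespace UL.PkFPST

variable {I : Type} [LinearOrder I]

theorem fin0_q1 (ε : I) (k : ℕ) : Fin0 (q1 ε k) :=
  (Set.finite_singleton ε).subset fun ξ hξ => by
    by_contra hc
    exact hξ (q1_ne k hc)

theorem fin0_qon {D : Set I} {q : I → ℕ} (hq : Fin0 q) : Fin0 (qon D q) :=
  hq.subset fun ξ hξ hc => hξ (by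
    by_cases h : ξ ∈ D
    · rw [qon_in h]; exact hc
    · exact qon_out h)

theorem thm : G_RES → G_FPS → G_RL → G_GL → G_LOC → G_FPST := by
  intro hRES hFPS hRL hGL hLOC I _ _ ε IH q hq hsup
  rcases Nat.eq_zero_or_pos (q ε) with h0 | hpos
  · refine IH q hq fun ξ hξ => ?_
    by_cases he : ξ = ε
    · rw [he]; exact h0
    · exact hsup ξ fun hle => hξ (lt_of_le_of_ne hle he)
  obtain ⟨n, hn⟩ : ∃ n, q ε = n + 1 := ⟨q ε - 1, by omega⟩
  have hD : IsLowerSet (Set.Iio ε) := isLowerSet_Iio ε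
  have hFP : ∀ q', Fin0 q' → (∀ ξ, ξ ∉ Set.Iio ε → q' ξ = 0) → FP (Set.Iio ε) q' :=
    fun q' h1 h2 => hRES I (Set.Iio ε) q' hD (IH q' h1 h2)
  have hFPS0 : FPS (Set.Iio ε) (fun _ => 0) :=
    hFPS I (Set.Iio ε) hD hFP (fun _ => 0) (by simp [Fin0]) fun _ _ => rfl
  intro Q hdns hopn
  -- the claim
  have claim : ∀ h : Pt I → Pt I, IsM h → ∀ σ : Str, σ.length = n →
      ∃ χ, Pure q χ ∧ Cov Set.univ (h ∘ χ ∘ J (at1 ε σ)) Q := by
    intro h hh σ hσ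
    have hk : IsM (h ∘ J (at1 ε σ)) := hh.comp (J_isM (at1_fin ε σ))
    have hher : Her (fun (_ : Bool) (f : Pt I → Pt I) =>
        Cov Set.univ ((h ∘ J (at1 ε σ)) ∘ f) Q) := by
      refine ⟨fun _ f g hf hP hg => ?_, fun _ f _ hP => ?_⟩
      · exact Cov.comp' (f := (h ∘ J (at1 ε σ)) ∘ f) (g := g) isLowerSet_univ
          (MD_univ.2 (hk.comp hf)) hopn hP (MD_univ.2 hg)
      · exact Cov.trans hP
    have hden : ∀ f : Pt I → Pt I, IsM f → ∃ (g : Pt I → Pt I) (_ : Bool), IsM g ∧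
        Cov Set.univ ((h ∘ J (at1 ε σ)) ∘ (f ∘ g)) Q := by
      intro f hf
      obtain ⟨g, hg, hQ⟩ := hdns _ (MD_univ.2 (hk.comp hf))
      exact ⟨g, true, hg.1, Cov.of hQ⟩
    have hrl := hRL I ε hFPS0 _ hher hden
    have hq1D : ∀ k, ∀ ξ ∈ Set.Iio ε, q1 ε k ξ = 0 := fun k ξ hξ => q1_ne k (ne_of_lt hξ)
    -- the open dense set of the lower monoid
    obtain ⟨ψ, hψ, hψp, hψc⟩ := hFP (qon (Set.Iio ε) q) (fin0_qon hq)
      (fun ξ hξ => qon_out hξ)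
      (fun ψ => ∃ φ, UD (Set.Iio ε) φ ∧ Pure (q1 ε 1) φ ∧
        Cov Set.univ ((h ∘ J (at1 ε σ)) ∘ ψ ∘ φ) Q)
      (by
        intro f hf
        obtain ⟨χ, hχ, b, φ, h1, h2, h3⟩ := hrl f hf
        exact ⟨χ, hχ, φ, h1, h2, h3⟩)
      (by
        rintro f g hf ⟨φ, h1, h2, h3⟩ hg
        refine ⟨up (Set.Iio ε) (φ ∘ g), (h1.1.comp hg.1).up _, h2.swap hD (hq1D 1) hg, ?_⟩
        have e : (h ∘ J (at1 ε σ)) ∘ (f ∘ g) ∘ up (Set.Iio ε) (φ ∘ g) =
            ((h ∘ J (at1 ε σ)) ∘ f ∘ φ) ∘ g := by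
          rw [Function.comp_assoc f g, ← h1.swap hD hg]
          rfl
        rw [e]
        exact Cov.comp' isLowerSet_univ (MD_univ.2 (hk.comp (hf.1.comp h1.1))) hopn h3
          (MD_univ.2 hg.1))
    obtain ⟨τ, hτ, hcov⟩ := hψc.enum
    choose φ h1 h2 h3 using fun l => (hτ l).2.2
    obtain ⟨Θ, hΘ, A, hAD, hA, hΘc⟩ := hGL I (Set.Iio ε) Unit (fun _ => q1 ε 1) τ
      (fun l _ => φ l) hD (fun l => ⟨(hτ l).1, (hτ l).2.1⟩) hcov (fun l _ => ⟨h1 l, h2 l⟩)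
    obtain ⟨hΦ1, hΦ2⟩ := hΘ ()
    have hCov : Cov Set.univ ((h ∘ J (at1 ε σ)) ∘ ψ ∘ Θ ()) Q := by
      apply Cov.trans
      refine ⟨A, Set.subset_univ _, hA, fun z => ?_⟩
      obtain ⟨ρ, hρ1, hρ2, hρ3, l, lam, hl1, hl2, hl3, hl4⟩ := hΘc z
      refine ⟨ρ, hρ1, hρ2, hρ3, ?_⟩
      have e : ((h ∘ J (at1 ε σ)) ∘ ψ ∘ Θ ()) ∘ J ρ =
          ((h ∘ J (at1 ε σ)) ∘ (ψ ∘ J (τ l)) ∘ φ l) ∘ J lam := by
        have := hl4 ()
        calc ((h ∘ J (at1 ε σ)) ∘ ψ ∘ Θ ()) ∘ J ρ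
            = (h ∘ J (at1 ε σ)) ∘ ψ ∘ (Θ () ∘ J ρ) := rfl
          _ = (h ∘ J (at1 ε σ)) ∘ ψ ∘ (J (τ l) ∘ φ l ∘ J lam) := by rw [this]
          _ = _ := rfl
      show Cov Set.univ (((h ∘ J (at1 ε σ)) ∘ ψ ∘ Θ ()) ∘ J ρ) Q
      rw [e]
      exact Cov.comp' isLowerSet_univ
        (MD_univ.2 (hk.comp ((hψ.1.comp (J_isM (hτ l).1)).comp (h1 l).1))) hopn (h3 l)
        (MD_univ.2 (J_isM hl1))
    obtain ⟨χ, hχ1, hχ2, hχ3, -⟩ := hLOC I (Set.Iio ε) (q1 ε 1) (q1 ε (n + 1)) (at1 ε σ)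
      (ψ ∘ Θ ()) hD (fin0_q1 ε _) (hq1D _)
      (fun ξ hξ => by
        have : ξ = ε := by
          by_contra hc
          exact hξ (q1_ne _ hc)
        rw [this, q1_same])
      (fun ξ => by
        by_cases hξ : ξ = ε
        · rw [hξ, at1_same, q1_same, hσ]; rfl
        · rw [at1_ne σ hξ, q1_ne _ hξ]; rfl)
      ((hψ.pure (hq1D 1)).comp hΦ2)
    have hlo : lo (Set.Iio ε) χ = ψ := by
      rw [hχ2, lo_comp hψ.1 hD, hψ.lo_eq, hΦ1.lo_eq]
      rfl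
    have hqoff : (fun ξ => if q1 ε (n + 1) ξ = 0 then q1 ε 1 ξ else q1 ε (n + 1) ξ) =
        qoff (Set.Iio ε) q := by
      funext ξ
      rcases lt_trichotomy ξ ε with hξ | hξ | hξ
      · rw [qoff_in (show ξ ∈ Set.Iio ε from hξ), q1_ne _ hξ.ne, q1_ne _ hξ.ne]; rfl
      · rw [hξ, qoff_out (by simp), q1_same, q1_same, hn]; simp
      · rw [qoff_out (by simpa using hξ.le), q1_ne _ hξ.ne', q1_ne _ hξ.ne',
          hsup ξ (not_le.2 hξ)]; rfl
    rw [hqoff] at hχ3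
    refine ⟨χ, Pure.of_lo_up hD hχ3.isM (by rw [hlo]; exact hψp) (hχ3.up _), ?_⟩
    rw [hχ1]
    exact hCov
  -- all strings of length `n`
  have hall : ∀ l : List Str, (∀ σ ∈ l, σ.length = n) →
      ∃ h, Pure q h ∧ ∀ σ ∈ l, Cov Set.univ (h ∘ J (at1 ε σ)) Q := by
    intro l
    induction l with
    | nil => exact fun _ => ⟨id, Pure.id' q, fun σ hσ => absurd hσ (by simp)⟩
    | cons σ l ih =>
      intro hl
      obtain ⟨h, hh, hc⟩ := ih fun σ' hσ' => hl σ' (List.mem_cons_of_mem _ hσ')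
      obtain ⟨χ, hχ, hχc⟩ := claim h hh.isM σ (hl σ List.mem_cons_self)
      refine ⟨h ∘ χ, hh.comp hχ, fun σ' hσ' => ?_⟩
      rcases List.mem_cons.1 hσ' with rfl | hσ''
      · exact hχc
      · have hval : ∀ z, (χ ∘ J (at1 ε σ')) z ∈ B (at1 ε σ') := by
          intro z ξ
          by_cases hξ : ξ = ε
          · subst hξ
            rw [at1_same]
            have h4 := hχ.pre (J (at1 ξ σ') z) ξ
            have h5 : Pre σ' (J (at1 ξ σ') z ξ) := by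
              rw [J_apply, at1_same]
              exact pre_cat _ _
            have h6 : res (J (at1 ξ σ') z ξ) (q ξ - 1) = σ' := by
              rw [hn, Nat.add_sub_cancel, ← hl σ' hσ']
              exact (pre_iff.1 h5).symm
            rw [h6] at h4
            exact h4
          · rw [at1_ne σ' hξ]; exact pre_nil _
        obtain ⟨g, hg, hg', -⟩ := (hχ.isM.comp (J_isM (at1_fin ε σ'))).strip
          (at1_fin ε σ').countable hval
        have e : (h ∘ χ) ∘ J (at1 ε σ') = (h ∘ J (at1 ε σ')) ∘ g := by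
          calc (h ∘ χ) ∘ J (at1 ε σ') = h ∘ (χ ∘ J (at1 ε σ')) := rfl
            _ = h ∘ (J (at1 ε σ') ∘ g) := by rw [hg']
            _ = _ := rfl
        rw [e]
        exact Cov.comp' isLowerSet_univ (MD_univ.2 (hh.isM.comp (J_isM (at1_fin ε σ')))) hopn
          (hc σ' hσ'') (MD_univ.2 hg)
  have hfin : {σ : Str | σ.length = n}.Finite := List.finite_length_eq Bool n
  obtain ⟨h, hh, hc⟩ := hall hfin.toFinset.toList (fun σ hσ => by
    simpa using hσ)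
  refine ⟨h, MD_univ.2 hh.isM, hh, ?_⟩
  apply Cov.trans
  refine ⟨{ε}, Set.subset_univ _, Set.countable_singleton ε, fun z => ?_⟩
  refine ⟨at1 ε (res (z ε) n), at1_fin _ _, at1_Sp _ _, ?_, hc _ (by simp)⟩
  intro ξ
  by_cases hξ : ξ = ε
  · subst hξ; rw [at1_same]; exact pre_res _ _
  · rw [at1_ne _ hξ]; exact pre_nil _

end UL.PkFPST
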