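import Pool.Agent.Helper15.UL.GoalsE

/-! # MP_57a173_lc: packet WIT, Borel sets have closed codes with measurable witnesses -/

noncomputable section

namespace UL.PkWIT

open MeasureTheory

/-- The square of the Cantor space. -/
abbrev X2 : Type := (ℕ → Bool) × (ℕ → Bool)

/-- Closed sets of triples. -/
def Cl (F : (ℕ → Bool) → (ℕ → Bool) → (ℕ → ℕ) → Prop) : Prop := ∀ x a w,
  (∀ n, ∃ x' a' w', F x' a' w' ∧ ∀ i, i < n → x' i = x i ∧ a' i = a i ∧ w' i = w i) → F x a w

/-- `R` is the projection of a closed set, with a measurable witness. -/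
def W (R : Set X2) : Prop := ∃ F, Cl F ∧ ∃ w : X2 → ℕ → ℕ,
  (∀ n, Measurable fun q => w q n) ∧ (∀ q ∈ R, F q.1 q.2 (w q)) ∧
  ∀ q, q ∉ R → ∀ w', ¬ F q.1 q.2 w'

theorem W_clopen (R : Set X2) (P : (ℕ → Bool) → (ℕ → Bool) → Prop) (N : ℕ)
    (hR : ∀ q, q ∈ R ↔ P q.1 q.2)
    (hP : ∀ x a x' a', (∀ i, i < N → x' i = x i ∧ a' i = a i) → P x' a' → P x a) : W R := by
  refine ⟨fun x a _ => P x a, ?_, fun _ _ => 0, fun _ => measurable_const,
    fun q hq => (hR q).1 hq, fun q hq w' h => hq ((hR q).2 h)⟩
  intro x a w h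
  obtain ⟨x', a', w', h1, h2⟩ := h N
  exact hP x a x' a' (fun i hi => ⟨(h2 i hi).1, (h2 i hi).2.1⟩) h1

theorem measurable_first {R : ℕ → Set X2} (hR : ∀ n, MeasurableSet (R n)) :
    Measurable fun q => sInf {n | q ∈ R n} := by
  refine measurable_to_countable' fun m => ?_
  have e : (fun q => sInf {n | q ∈ R n}) ⁻¹' {m} =
      (R m ∩ ⋂ j ∈ {j | j < m}, (R j)ᶜ) ∪ ({q | m = 0} ∩ ⋂ n, (R n)ᶜ) := by
    ext q
    simp only [Set.mem_preimage, Set.mem_singleton_iff, Set.mem_union, Set.mem_inter_iff,
      Set.mem_iInter, Set.mem_compl_iff, Set.mem_ofPred_eq]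
    by_cases hne : {n | q ∈ R n}.Nonempty
    · constructor
      · rintro rfl
        exact Or.inl ⟨Nat.sInf_mem hne, fun j hj hc => absurd (Nat.sInf_le hc) (not_le.2 hj)⟩
      · rintro (⟨h1, h2⟩ | ⟨-, h2⟩)
        · refine le_antisymm (Nat.sInf_le h1) ?_
          by_contra hc
          exact h2 _ (not_le.1 hc) (Nat.sInf_mem hne)
        · obtain ⟨n, hn⟩ := hne
          exact absurd hn (h2 n)
    · have h0 : {n | q ∈ R n} = ∅ := Set.not_nonempty_iff_eq_empty.1 hne
      have h1 : ∀ n, q ∉ R n := fun n hn => hne ⟨n, hn⟩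
      rw [h0, Nat.sInf_empty]
      constructor
      · rintro rfl
        exact Or.inr ⟨rfl, h1⟩
      · rintro (⟨h2, -⟩ | ⟨h2, -⟩)
        · exact absurd h2 (h1 m)
        · exact h2.symm
  rw [e]
  refine MeasurableSet.union ((hR m).inter (MeasurableSet.biInter (Set.to_countable _)
    fun j _ => (hR j).compl)) (MeasurableSet.inter ?_ (MeasurableSet.iInter fun n => (hR n).compl))
  exact MeasurableSet.const _

theorem W_union {R : ℕ → Set X2} (hR : ∀ n, MeasurableSet (R n)) (h : ∀ n, W (R n)) :
    W (⋃ n, R n) := by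
  choose F hF w hw h1 h2 using h
  let k : X2 → ℕ := fun q => sInf {n | q ∈ R n}
  have hk : Measurable k := measurable_first hR
  refine ⟨fun x a v => F (v 0) x a (fun i => v (i + 1)), ?_,
    fun q n => Nat.casesOn n (k q) (fun i => w (k q) q i), ?_, ?_, ?_⟩
  · intro x a v hv
    refine hF (v 0) x a _ fun n => ?_
    obtain ⟨x', a', v', h3, h4⟩ := hv (n + 1)
    refine ⟨x', a', fun i => v' (i + 1), ?_, fun i hi => ?_⟩
    · have := (h4 0 (Nat.succ_pos n)).2.2
      rwa [this] at h3
    · exact ⟨(h4 i (by omega)).1, (h4 i (by omega)).2.1, (h4 (i + 1) (by omega)).2.2⟩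
  · intro n
    cases n with
    | zero => exact hk
    | succ i =>
      show Measurable fun q => w (k q) q i
      refine measurable_to_countable' fun m => ?_
      have e : (fun q => w (k q) q i) ⁻¹' {m} =
          ⋃ n, (k ⁻¹' {n} ∩ (fun q => w n q i) ⁻¹' {m}) := by
        ext q
        simp
      rw [e]
      exact MeasurableSet.iUnion fun n => (hk (measurableSet_singleton n)).inter
        (hw n i (measurableSet_singleton m))
  · intro q hq
    obtain ⟨n, hn⟩ := Set.mem_iUnion.1 hq
    have hne : {n | q ∈ R n}.Nonempty := ⟨n, hn⟩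
    exact h1 (k q) q (Nat.sInf_mem hne)
  · intro q hq v hv
    exact h2 (v 0) q (fun hc => hq (Set.mem_iUnion.2 ⟨_, hc⟩)) _ hv

theorem W_inter {R : ℕ → Set X2} (h : ∀ n, W (R n)) : W (⋂ n, R n) := by
  choose F hF w hw h1 h2 using h
  refine ⟨fun x a v => ∀ n, F n x a (fun i => v (Nat.pair n i)), ?_,
    fun q j => w j.unpair.1 q j.unpair.2, fun j => hw _ _, ?_, ?_⟩
  · intro x a v hv n
    refine hF n x a _ fun m => ?_
    obtain ⟨x', a', v', h3, h4⟩ := hv (Nat.pair n m + m)
    refine ⟨x', a', fun i => v' (Nat.pair n i), h3 n, fun i hi => ?_⟩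
    have hp := Nat.pair_lt_pair_right n hi
    exact ⟨(h4 i (by omega)).1, (h4 i (by omega)).2.1, (h4 (Nat.pair n i) (by omega)).2.2⟩
  · intro q hq n
    have := h1 n q (Set.mem_iInter.1 hq n)
    simpa using this
  · intro q hq v hv
    obtain ⟨n, hn⟩ : ∃ n, q ∉ R n := by
      by_contra hc
      push Not at hc
      exact hq (Set.mem_iInter.2 hc)
    exact h2 n q hn _ (hv n)

theorem W_all (hG : G_GEN) (R : Set X2) (hR : MeasurableSet R) : W R := by
  have key : MeasurableSet R ∧ W R ∧ W Rᶜ := by
    refine hG.2.2.2 (fun R => MeasurableSet R ∧ W R ∧ W Rᶜ) ?_ ?_ ?_ ?_ R hR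
    · refine ⟨MeasurableSet.empty, ?_, ?_⟩
      · exact W_clopen _ (fun _ _ => False) 0 (fun q => by simp) (fun _ _ _ _ _ h => h)
      · exact W_clopen _ (fun _ _ => True) 0 (fun q => by simp) (fun _ _ _ _ _ h => h)
    · rintro S (⟨n, rfl⟩ | ⟨n, rfl⟩)
      · refine ⟨?_, ?_, ?_⟩
        · have hm : Measurable fun q : X2 => q.1 n := (measurable_pi_apply n).comp measurable_fst
          exact hm (measurableSet_singleton true)
        · refine W_clopen _ (fun x _ => x n = true) (n + 1) (fun q => Iff.rfl) ?_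
          intro x a x' a' h h'
          rw [← (h n (Nat.lt_succ_self n)).1]; exact h'
        · refine W_clopen _ (fun x _ => ¬ x n = true) (n + 1) (fun q => Iff.rfl) ?_
          intro x a x' a' h h'
          rw [← (h n (Nat.lt_succ_self n)).1]; exact h'
      · refine ⟨?_, ?_, ?_⟩
        · have hm : Measurable fun q : X2 => q.2 n := (measurable_pi_apply n).comp measurable_snd
          exact hm (measurableSet_singleton true)
        · refine W_clopen _ (fun _ a => a n = true) (n + 1) (fun q => Iff.rfl) ?_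
          intro x a x' a' h h'
          rw [← (h n (Nat.lt_succ_self n)).2]; exact h'
        · refine W_clopen _ (fun _ a => ¬ a n = true) (n + 1) (fun q => Iff.rfl) ?_
          intro x a x' a' h h'
          rw [← (h n (Nat.lt_succ_self n)).2]; exact h'
    · rintro S ⟨h1, h2, h3⟩
      exact ⟨h1.compl, h3, by rwa [compl_compl]⟩
    · intro S hS
      refine ⟨MeasurableSet.iUnion fun n => (hS n).1, W_union (fun n => (hS n).1)
        fun n => (hS n).2.1, ?_⟩
      rw [Set.compl_iUnion]
      exact W_inter fun n => (hS n).2.2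
  exact key.2.1

theorem thm : G_GEN → G_WIT := by
  classical
  intro hG R hR
  obtain ⟨F, hF, w, hw, h1, h2⟩ := W_all hG R hR
  refine ⟨fun c => decide (∃ x a v n, F x a v ∧
    c = Encodable.encode (res x n, res a n, (List.range n).map v)),
    fun x a j => decide (w (x, a) j.unpair.1 = j.unpair.2), ?_, ?_, ?_⟩
  · intro n
    have e : {q : X2 | decide (w (q.1, q.2) n.unpair.1 = n.unpair.2) = true} =
        (fun q => w q n.unpair.1) ⁻¹' {n.unpair.2} := by
      ext q
      simp
    show MeasurableSet {q : X2 | decide (w (q.1, q.2) n.unpair.1 = n.unpair.2) = true}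
    rw [e]
    exact hw _ (measurableSet_singleton _)
  · intro x a hxa
    refine ⟨w (x, a), fun n m => by simp, fun n => ?_⟩
    exact decide_eq_true ⟨x, a, w (x, a), n, h1 (x, a) hxa, rfl⟩
  · rintro x a hxa v ⟨v', -, h4⟩
    refine h2 (x, a) hxa v' (hF x a v' fun n => ?_)
    obtain ⟨x', a', u, m, h5, h6⟩ := of_decide_eq_true (h4 n)
    have h7 := Encodable.encode_injective h6
    simp only [Prod.mk.injEq] at h7
    obtain ⟨h8, h9, h10⟩ := h7
    have hnm : n = m := by
      have := congrArg List.length h8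
      simpa using this
    subst hnm
    refine ⟨x', a', u, h5, fun i hi => ⟨?_, ?_, ?_⟩⟩
    · have := congrArg (fun l => l[i]?) h8
      simp only [res, List.getElem?_map, List.getElem?_range hi] at this
      simpa using this.symm
    · have := congrArg (fun l => l[i]?) h9
      simp only [res, List.getElem?_map, List.getElem?_range hi] at this
      simpa using this.symm
    · have := congrArg (fun l => l[i]?) h10
      simp only [List.getElem?_map, List.getElem?_range hi] at this
      simpa using this.symm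

end UL.PkWIT
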